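import Pool.Agent.H75.PRL.S3
import Pool.Agent.H83.AVS.NFO
import Pool.Agent.H40.AVS.HSM
import Pool.Agent.H37.AVS.LocB

/-!
# PRL, row LHL: the Hilbert symbol over a local field
-/

set_option autoImplicit false

namespace Pool.PRL

open Polynomial Matrix Pool.AVR Pool.AVS Pool.RZ

namespace LHL

variable {L : Type} [Field L] {O : ValuationSubring L} {π : L}

lemma dv_mul {a b : L} (ha : a ∈ O) (hb : b / π ∈ O) : a * b / π ∈ O := by
  rw [mul_div_assoc]
  exact O.mul_mem _ _ ha hb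

lemma dv_prime (h : Loc L O π) {a b : L} (ha : a ∈ O) (hab : a * b / π ∈ O) :
    a / π ∈ O ∨ b / π ∈ O := by
  by_cases h0 : a = 0
  · left
    rw [h0, zero_div]
    exact O.zero_mem
  by_cases h1 : a⁻¹ ∈ O
  · right
    have h2 : b / π = a⁻¹ * (a * b / π) := by
      field_simp
    rw [h2]
    exact O.mul_mem _ _ h1 hab
  · left
    exact (h.unif a ha h0).1 h1

lemma dv_sq (h : Loc L O π) {a : L} (ha : a ∈ O) (h1 : a ^ 2 / π ∈ O) : a / π ∈ O := by
  rw [sq] at h1
  rcases dv_prime h ha h1 with h2 | h2 <;> exact h2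

lemma unit_not_dv (h : Loc L O π) {u : L} (hu : UI (O : Set L) u) : u / π ∉ O := by
  intro h1
  apply LocB.pi_inv h
  have h2 : π⁻¹ = u⁻¹ * (u / π) := by
    rw [div_eq_mul_inv, ← mul_assoc, inv_mul_cancel₀ hu.1, one_mul]
  rw [h2]
  exact O.mul_mem _ _ hu.2.2 h1

lemma one_not_dv (h : Loc L O π) : (1 : L) / π ∉ O := by
  rw [one_div]
  exact LocB.pi_inv h

lemma dv_unit_mul (h : Loc L O π) {u a : L} (hu : UI (O : Set L) u) (h1 : u * a / π ∈ O) :
    a / π ∈ O := by
  rcases dv_prime h hu.2.1 h1 with h2 | h2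
  · exact (unit_not_dv h hu h2).elim
  · exact h2

lemma unit_of_not_dv (h : Loc L O π) {a : L} (ha : a ∈ O) (h1 : a / π ∉ O) :
    UI (O : Set L) a := by
  have h0 : a ≠ 0 := by
    rintro rfl
    rw [zero_div] at h1
    exact h1 O.zero_mem
  refine ⟨h0, ha, ?_⟩
  by_contra h2
  exact h1 ((h.unif a ha h0).1 h2)

lemma isSquare_iff (h : Loc L O π) {t : L} (ht : UI (O : Set L) t) :
    (∃ w ∈ O, (t - w ^ 2) / π ∈ O) ↔ IsSquare t := by
  constructor
  · rintro ⟨w, hw, h1⟩
    have hwn : w / π ∉ O := by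
      intro h2
      apply unit_not_dv h ht
      have h3 : t / π = (t - w ^ 2) / π + w * w / π := by
        ring
      rw [h3]
      exact O.add_mem _ _ h1 (dv_mul hw h2)
    have hu := unit_of_not_dv h hw hwn
    have hU : IsUnit (⟨w, hw⟩ : O) := by
      refine IsUnit.of_mul_eq_one (⟨w⁻¹, hu.2.2⟩ : O) ?_
      apply Subtype.ext
      exact mul_inv_cancel₀ hu.1
    haveI := h.hens
    obtain ⟨W', hW', -⟩ := HSM.sqrt (LocB.two_unit h) (⟨t, ht.2.1⟩ : O) ⟨w, hw⟩ hU (by
      rw [HSM.mem_max h]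
      have h3 : (((⟨w, hw⟩ : O) ^ 2 - ⟨t, ht.2.1⟩ : O) : L) / π = -((t - w ^ 2) / π) := by
        push_cast
        ring
      rw [h3]
      exact O.neg_mem _ h1)
    refine ⟨(W' : L), ?_⟩
    have h4 := congrArg (Subtype.val) hW'
    have h5 : (W' : L) ^ 2 = t := h4
    rw [← h5, sq]
  · rintro ⟨r, hr⟩
    refine ⟨r, ?_, ?_⟩
    · rcases O.mem_or_inv_mem r with h1 | h1
      · exact h1
      · by_cases h0 : r = 0
        · rw [h0]
          exact O.zero_mem
        · have h2 : r = t * r⁻¹ := by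
            rw [hr, mul_assoc, mul_inv_cancel₀ h0, mul_one]
          rw [h2]
          exact O.mul_mem _ _ ht.2.1 h1
    · rw [hr, sq, sub_self, zero_div]
      exact O.zero_mem

lemma iso_comm (a b : L) : Iso2 a b ↔ Iso2 b a := by
  constructor
  · rintro ⟨x, y, z, h, e⟩
    refine ⟨y, x, z, ?_, ?_⟩
    · tauto
    · linear_combination e
  · rintro ⟨x, y, z, h, e⟩
    refine ⟨y, x, z, ?_, ?_⟩
    · tauto
    · linear_combination e

lemma iso_sq (a b : L) {t : L} (ht : t ≠ 0) : Iso2 (a * t ^ 2) b ↔ Iso2 a b := by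
  constructor
  · rintro ⟨x, y, z, h, e⟩
    refine ⟨t * x, y, t * z, ?_, ?_⟩
    · rcases h with h | h | h
      · exact Or.inl (mul_ne_zero ht h)
      · exact Or.inr (Or.inl h)
      · exact Or.inr (Or.inr (mul_ne_zero ht h))
    · linear_combination e
  · rintro ⟨x, y, z, h, e⟩
    refine ⟨t⁻¹ * x, y, t⁻¹ * z, ?_, ?_⟩
    · rcases h with h | h | h
      · exact Or.inl (mul_ne_zero (inv_ne_zero ht) h)
      · exact Or.inr (Or.inl h)
      · exact Or.inr (Or.inr (mul_ne_zero (inv_ne_zero ht) h))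
    · have h1 : t ^ 2 * t⁻¹ ^ 2 = 1 := by
        rw [← mul_pow, mul_inv_cancel₀ ht, one_pow]
      linear_combination e + (a * x ^ 2 - a * b * z ^ 2) * h1

lemma isSquare_mul_sq (a : L) {t : L} (ht : t ≠ 0) : IsSquare (a * t ^ 2) ↔ IsSquare a := by
  constructor
  · rintro ⟨r, hr⟩
    refine ⟨r / t, ?_⟩
    field_simp
    linear_combination hr
  · rintro ⟨r, hr⟩
    refine ⟨r * t, ?_⟩
    rw [hr]
    ring

/-- A nonzero vector can be scaled to a vector with integral entries, one of them equal to `1`. -/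
lemma prim (O : ValuationSubring L) (x y z : L) (h : x ≠ 0 ∨ y ≠ 0 ∨ z ≠ 0) :
    ∃ t : L, t ≠ 0 ∧ t * x ∈ O ∧ t * y ∈ O ∧ t * z ∈ O ∧ (t * x = 1 ∨ t * y = 1 ∨ t * z = 1) := by
  have key : ∀ m a : L, m ≠ 0 → O.valuation a ≤ O.valuation m → m⁻¹ * a ∈ O := by
    intro m a hm hle
    rw [← O.valuation_le_one_iff, map_mul, map_inv₀]
    have hpos : O.valuation m ≠ 0 := (Valuation.ne_zero_iff _).2 hm
    rw [mul_comm, ← div_eq_mul_inv]
    exact div_le_one_of_le₀ hle zero_le'
  have hmax : ∃ m : L, (m = x ∨ m = y ∨ m = z) ∧ O.valuation x ≤ O.valuation m ∧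
      O.valuation y ≤ O.valuation m ∧ O.valuation z ≤ O.valuation m := by
    rcases le_total (O.valuation x) (O.valuation y) with h1 | h1
    · rcases le_total (O.valuation y) (O.valuation z) with h2 | h2
      · exact ⟨z, by tauto, h1.trans h2, h2, le_rfl⟩
      · exact ⟨y, by tauto, h1, le_rfl, h2⟩
    · rcases le_total (O.valuation x) (O.valuation z) with h2 | h2
      · exact ⟨z, by tauto, h2, h1.trans h2, le_rfl⟩
      · exact ⟨x, by tauto, le_rfl, h1, h2⟩
  obtain ⟨m, hm, m1, m2, m3⟩ := hmax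
  have hm0 : m ≠ 0 := by
    intro h0
    rw [h0, map_zero] at m1 m2 m3
    rcases h with h | h | h
    · exact (Valuation.ne_zero_iff _).2 h (le_antisymm m1 zero_le')
    · exact (Valuation.ne_zero_iff _).2 h (le_antisymm m2 zero_le')
    · exact (Valuation.ne_zero_iff _).2 h (le_antisymm m3 zero_le')
  refine ⟨m⁻¹, inv_ne_zero hm0, key m x hm0 m1, key m y hm0 m2, key m z hm0 m3, ?_⟩
  rcases hm with hm | hm | hm
  · left
    rw [← hm, inv_mul_cancel₀ hm0]
  · right
    left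
    rw [← hm, inv_mul_cancel₀ hm0]
  · right
    right
    rw [← hm, inv_mul_cancel₀ hm0]

lemma UI_mul {u v : L} (hu : UI (O : Set L) u) (hv : UI (O : Set L) v) :
    UI (O : Set L) (u * v) := by
  refine ⟨mul_ne_zero hu.1 hv.1, O.mul_mem _ _ hu.2.1 hv.2.1, ?_⟩
  rw [mul_inv]
  exact O.mul_mem _ _ hu.2.2 hv.2.2

lemma UI_neg {u : L} (hu : UI (O : Set L) u) : UI (O : Set L) (-u) := by
  refine ⟨neg_ne_zero.2 hu.1, O.neg_mem _ hu.2.1, ?_⟩
  rw [inv_neg]
  exact O.neg_mem _ hu.2.2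

lemma UI_one : UI (O : Set L) (1 : L) :=
  ⟨one_ne_zero, O.one_mem, by rw [inv_one]; exact O.one_mem⟩

lemma UI_pow {u : L} (hu : UI (O : Set L) u) (n : ℕ) : UI (O : Set L) (u ^ n) := by
  induction n with
  | zero =>
    rw [pow_zero]
    exact UI_one
  | succ n ih =>
    rw [pow_succ]
    exact UI_mul ih hu

/-- Two units. -/
lemma case00 (h : Loc L O π) {u v : L} (hu : UI (O : Set L) u) (hv : UI (O : Set L) v) :
    Iso2 u v := by
  have huv := UI_mul hu hv
  set G : Matrix (Fin 3) (Fin 3) L := Matrix.diagonal ![u, v, -(u * v)] with hG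
  obtain ⟨κ, hκ, he⟩ := nfo_thm L O π h G (u * v) (by
      rw [hG, Matrix.diagonal_transpose]) (by
      intro i j
      rw [hG]
      have h3 : u * v ∈ O := huv.2.1
      have h4 : u ∈ O := hu.2.1
      have h5 : v ∈ O := hv.2.1
      fin_cases i <;> fin_cases j <;> simp [Matrix.diagonal, h3, h4, h5, O.zero_mem]) huv (by
      rw [hG, Matrix.det_diagonal, Fin.prod_univ_three]
      simp only [Matrix.cons_val_zero, Matrix.cons_val_one, Matrix.cons_val]
      ring)
  have h0 : (κᵀ * G * κ) 0 0 = 0 := by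
    rw [he]
    simp [AA]
  have h1 : (κᵀ * G * κ) 0 0 = u * κ 0 0 ^ 2 + v * κ 1 0 ^ 2 - u * v * κ 2 0 ^ 2 := by
    rw [hG]
    simp only [Matrix.mul_apply, Matrix.transpose_apply, Matrix.diagonal_apply,
      Fin.sum_univ_three]
    simp
    ring
  refine ⟨κ 0 0, κ 1 0, κ 2 0, ?_, ?_⟩
  · by_contra hcon
    simp only [not_or, not_not] at hcon
    obtain ⟨c1, c2, c3⟩ := hcon
    apply hκ.2.1
    rw [Matrix.det_fin_three, c1, c2, c3]
    ring
  · linear_combination h0 - h1

/-- One uniformizer and one unit. -/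
lemma case10 (h : Loc L O π) {u v : L} (hu : UI (O : Set L) u) (hv : UI (O : Set L) v) :
    Iso2 (π * u) v ↔ IsSquare v := by
  constructor
  · rintro ⟨x0, y0, z0, hne, he0⟩
    obtain ⟨t, ht, hx, hy, hz, h1⟩ := prim O x0 y0 z0 hne
    generalize hX : t * x0 = x at hx h1
    generalize hY : t * y0 = y at hy h1
    generalize hZ : t * z0 = z at hz h1
    have he : π * u * x ^ 2 + v * y ^ 2 = π * u * v * z ^ 2 := by
      rw [← hX, ← hY, ← hZ]
      linear_combination t ^ 2 * he0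
    have hπ := h.pi_ne
    have e1 : v * y ^ 2 / π = u * v * z ^ 2 - u * x ^ 2 := by
      field_simp
      linear_combination he
    have hy1 : y / π ∈ O := by
      refine dv_sq h hy (dv_unit_mul h hv ?_)
      rw [e1]
      exact O.sub_mem (O.mul_mem _ _ (O.mul_mem _ _ hu.2.1 hv.2.1) (pow_mem hz 2))
        (O.mul_mem _ _ hu.2.1 (pow_mem hx 2))
    have e2 : u * (x ^ 2 - v * z ^ 2) / π = -(v * (y / π) ^ 2) := by
      field_simp
      linear_combination he
    have hxz : (x ^ 2 - v * z ^ 2) / π ∈ O := by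
      refine dv_unit_mul h hu ?_
      rw [e2]
      exact O.neg_mem _ (O.mul_mem _ _ hv.2.1 (pow_mem hy1 2))
    by_contra hns
    have hz1 : z / π ∈ O := by
      by_contra hz1
      have hzu := unit_of_not_dv h hz hz1
      apply hns
      rw [← isSquare_iff h hv]
      refine ⟨x * z⁻¹, O.mul_mem _ _ hx hzu.2.2, ?_⟩
      have hz0 := hzu.1
      have e3 : (v - (x * z⁻¹) ^ 2) / π = -(z⁻¹ ^ 2 * ((x ^ 2 - v * z ^ 2) / π)) := by
        field_simp
        ring
      rw [e3]
      exact O.neg_mem _ (O.mul_mem _ _ (pow_mem hzu.2.2 2) hxz)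
    have hx1 : x / π ∈ O := by
      refine dv_sq h hx ?_
      have e3 : x ^ 2 / π = (x ^ 2 - v * z ^ 2) / π + (v * z) * z / π := by
        ring
      rw [e3]
      exact O.add_mem _ _ hxz (dv_mul (O.mul_mem _ _ hv.2.1 hz) hz1)
    rcases h1 with h1 | h1 | h1
    · rw [h1] at hx1
      exact one_not_dv h hx1
    · rw [h1] at hy1
      exact one_not_dv h hy1
    · rw [h1] at hz1
      exact one_not_dv h hz1
  · rintro ⟨w, hw⟩
    refine ⟨w, 0, 1, Or.inr (Or.inr one_ne_zero), ?_⟩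
    rw [hw]
    ring

/-- Two uniformizers. -/
lemma case11 (h : Loc L O π) {u v : L} (hu : UI (O : Set L) u) (hv : UI (O : Set L) v) :
    Iso2 (π * u) (π * v) ↔ IsSquare (-(u * v)) := by
  constructor
  · rintro ⟨x0, y0, z0, hne, he0⟩
    obtain ⟨t, ht, hx, hy, hz, h1⟩ := prim O x0 y0 z0 hne
    generalize hX : t * x0 = x at hx h1
    generalize hY : t * y0 = y at hy h1
    generalize hZ : t * z0 = z at hz h1
    have hπ := h.pi_ne
    have he : u * x ^ 2 + v * y ^ 2 = π * (u * v * z ^ 2) := by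
      have e0 : π * (u * x ^ 2 + v * y ^ 2) = π * (π * (u * v * z ^ 2)) := by
        rw [← hX, ← hY, ← hZ]
        linear_combination t ^ 2 * he0
      exact mul_left_cancel₀ hπ e0
    have hxy : (u * x ^ 2 + v * y ^ 2) / π ∈ O := by
      rw [he, mul_div_cancel_left₀ _ hπ]
      exact O.mul_mem _ _ (O.mul_mem _ _ hu.2.1 hv.2.1) (pow_mem hz 2)
    by_contra hns
    have huv := UI_neg (UI_mul hu hv)
    have hy1 : y / π ∈ O := by
      by_contra hy1
      have hyu := unit_of_not_dv h hy hy1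
      apply hns
      rw [← isSquare_iff h huv]
      refine ⟨u * x * y⁻¹, O.mul_mem _ _ (O.mul_mem _ _ hu.2.1 hx) hyu.2.2, ?_⟩
      have hy0 := hyu.1
      have e3 : (-(u * v) - (u * x * y⁻¹) ^ 2) / π =
          -(u * y⁻¹ ^ 2 * ((u * x ^ 2 + v * y ^ 2) / π)) := by
        field_simp
        ring
      rw [e3]
      exact O.neg_mem _ (O.mul_mem _ _ (O.mul_mem _ _ hu.2.1 (pow_mem hyu.2.2 2)) hxy)
    have hx1 : x / π ∈ O := by
      refine dv_sq h hx (dv_unit_mul h hu ?_)
      have e3 : u * x ^ 2 / π = (u * x ^ 2 + v * y ^ 2) / π - (v * y) * y / π := by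
        ring
      rw [e3]
      exact O.sub_mem hxy (dv_mul (O.mul_mem _ _ hv.2.1 hy) hy1)
    have hz1 : z / π ∈ O := by
      refine dv_sq h hz (dv_unit_mul h (UI_mul hu hv) ?_)
      have e3 : u * v * z ^ 2 / π = u * (x / π) ^ 2 + v * (y / π) ^ 2 := by
        field_simp
        linear_combination -he
      rw [e3]
      exact O.add_mem _ _ (O.mul_mem _ _ hu.2.1 (pow_mem hx1 2))
        (O.mul_mem _ _ hv.2.1 (pow_mem hy1 2))
    rcases h1 with h1 | h1 | h1
    · rw [h1] at hx1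
      exact one_not_dv h hx1
    · rw [h1] at hy1
      exact one_not_dv h hy1
    · rw [h1] at hz1
      exact one_not_dv h hz1
  · rintro ⟨w, hw⟩
    refine ⟨w, u, 0, Or.inr (Or.inl hu.1), ?_⟩
    linear_combination (-(π * u)) * hw

lemma pow_split (x : L) (n : ℕ) : x ^ n = x ^ (n % 2) * (x ^ (n / 2)) ^ 2 := by
  rw [← pow_mul, ← pow_add, mul_comm (n / 2) 2]
  congr 1
  exact (Nat.mod_add_div n 2).symm

end LHL

open LHL in
/-- **Row LHL.** -/
theorem lhl : LHLStmt := by
  intro L _ O π h u v i j hu hv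
  have hπ := h.pi_ne
  -- the right side
  have hunit : UI (O : Set L) ((-1) ^ (i * j) * u ^ j * v ^ i) :=
    UI_mul (UI_mul (UI_pow (UI_neg UI_one) _) (UI_pow hu _)) (UI_pow hv _)
  rw [isSquare_iff h hunit]
  have r1 : (-1 : L) ^ (i * j) = (-1) ^ ((i % 2) * (j % 2)) := by
    rw [neg_one_pow_eq_pow_mod_two, Nat.mul_mod, ← neg_one_pow_eq_pow_mod_two]
  have r2 : (-1 : L) ^ (i * j) * u ^ j * v ^ i =
      ((-1) ^ ((i % 2) * (j % 2)) * u ^ (j % 2) * v ^ (i % 2)) *
        (u ^ (j / 2) * v ^ (i / 2)) ^ 2 := by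
    rw [r1, pow_split u j, pow_split v i]
    have e1 : u ^ (j % 2 % 2) = u ^ (j % 2) := by rw [Nat.mod_mod]
    ring
  rw [r2, isSquare_mul_sq _ (mul_ne_zero (pow_ne_zero _ hu.1) (pow_ne_zero _ hv.1))]
  -- the left side
  have l1 : Iso2 (π ^ i * u) (π ^ j * v) ↔ Iso2 (π ^ (i % 2) * u) (π ^ (j % 2) * v) := by
    have e1 : π ^ i * u = (π ^ (i % 2) * u) * (π ^ (i / 2)) ^ 2 := by
      rw [pow_split π i]
      ring
    have e2 : π ^ j * v = (π ^ (j % 2) * v) * (π ^ (j / 2)) ^ 2 := by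
      rw [pow_split π j]
      ring
    rw [e1, iso_sq _ _ (pow_ne_zero _ hπ), iso_comm, e2, iso_sq _ _ (pow_ne_zero _ hπ),
      iso_comm]
  rw [l1]
  rcases Nat.mod_two_eq_zero_or_one i with hi | hi <;>
    rcases Nat.mod_two_eq_zero_or_one j with hj | hj
  · rw [hi, hj]
    simp only [pow_zero, one_mul, mul_zero, mul_one]
    exact ⟨fun _ => IsSquare.one, fun _ => case00 h hu hv⟩
  · rw [hi, hj]
    simp only [pow_zero, one_mul, mul_one, pow_one]
    rw [iso_comm]
    exact case10 h hv hu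
  · rw [hi, hj]
    simp only [pow_zero, one_mul, mul_one, pow_one, mul_zero]
    exact case10 h hu hv
  · rw [hi, hj]
    simp only [pow_one, mul_one]
    rw [case11 h hu hv]
    have e1 : (-1 : L) * u * v = -(u * v) := by ring
    rw [e1]

end Pool.PRL
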